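import Mathlib
import Pool.Agent.helper64.NQ.Spec

/-!
# Project nq (MP_baa4d7_al), row TWI
-/

set_option autoImplicit false

namespace Pool.Agent.NQ

open Pool.Agent.helper58.DC Pool.Agent.DI Pool.Agent.DR

/-- A nontrivial normal `p`-subgroup contains an abelian minimal normal subgroup. -/
theorem TWI_min {p : ℕ} [Fact p.Prime] {A : Type} [Group A] [Finite A] (P : Subgroup A)
    (hPn : P.Normal) (hPp : IsPGroup p P) (hP : P ≠ ⊥) :
    ∃ N : Subgroup A, MinAb N ∧ p ∣ Nat.card N ∧ IsPGroup p N := by
  have hnt : Nontrivial P := (Subgroup.nontrivial_iff_ne_bot P).2 hP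
  have hcn : Nontrivial (Subgroup.center P) := IsPGroup.center_nontrivial hPp
  have hZn : (P ⊓ Subgroup.centralizer (P : Set A)).Normal := inferInstance
  have hZ : P ⊓ Subgroup.centralizer (P : Set A) ≠ ⊥ := by
    intro h
    obtain ⟨z, hz⟩ := exists_ne (1 : Subgroup.center P)
    apply hz
    have hzm : (z.1 : A) ∈ P ⊓ Subgroup.centralizer (P : Set A) := by
      refine Subgroup.mem_inf.2 ⟨z.1.2, ?_⟩
      rw [Subgroup.mem_centralizer_iff]
      intro y hy
      have := (Subgroup.mem_center_iff.1 z.2) ⟨y, hy⟩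
      exact congrArg Subtype.val this
    rw [h, Subgroup.mem_bot] at hzm
    exact Subtype.ext (Subtype.ext hzm)
  obtain ⟨K, hK⟩ := Set.Finite.exists_minimal
    (s := {K : Subgroup A | K.Normal ∧ K ≠ ⊥ ∧ K ≤ P ⊓ Subgroup.centralizer (P : Set A)})
    (Set.toFinite _) ⟨_, hZn, hZ, le_refl _⟩
  obtain ⟨⟨hK1, hK2, hK3⟩, hK4⟩ := hK
  have hmin : MinAb K := by
    refine ⟨hK2, hK1, ?_, ?_⟩
    · intro L hL hLK
      by_cases hLb : L = ⊥
      · exact Or.inl hLb
      · exact Or.inr (le_antisymm hLK (hK4 ⟨hL, hLb, hLK.trans hK3⟩ hLK))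
    · intro a ha b hb
      have h1 := (Subgroup.mem_inf.1 (hK3 ha)).1
      have h2 := (Subgroup.mem_inf.1 (hK3 hb)).2
      exact (Subgroup.mem_centralizer_iff.1 h2) a h1
  have hKp : IsPGroup p K := hPp.to_le (hK3.trans inf_le_left)
  rcases hKp.card_eq_or_dvd with h | h
  · exact absurd (Subgroup.eq_bot_of_card_eq K h) hK2
  · exact ⟨K, hmin, h, hKp⟩

/-- The order of the middle group of an extension. -/
theorem TWI_card {G E A : Type} [Group G] [Group E] [Group A] (X : Extension G E A) :
    Nat.card E = Nat.card A * Nat.card G := by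
  rw [Subgroup.card_eq_card_quotient_mul_card_subgroup X.proj.ker,
    Nat.card_congr (QuotientGroup.quotientKerEquivOfSurjective X.proj X.proj_surjective).toEquiv]
  congr 1
  have h1 : X.proj.ker = X.inc.range := by
    ext e
    rw [MonoidHom.mem_ker, MonoidHom.mem_range]
    exact X.exact e
  rw [h1]
  exact (Nat.card_congr (MonoidHom.ofInjective X.inc_injective).toEquiv).symm

/-- The class used for the application of PCAX. -/
def TWI_cl (𝒳 : (E : Type) → [Group E] → Prop) (ρ : ℕ → Prop) (m : ℕ) (E : Type) [Group E] :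
    Prop :=
  Finite E ∧ 𝒳 E ∧ ∀ r, ρ r → (Nat.card E).factorization r ≤ m.factorization r

theorem TWI_cl_mono {m n : ℕ} (hmn : m ∣ n) (hn : n ≠ 0) (r : ℕ) :
    m.factorization r ≤ n.factorization r := by
  have hm : m ≠ 0 := fun h => hn (by rw [h] at hmn; exact zero_dvd_iff.1 hmn)
  exact (Nat.factorization_le_iff_dvd hm hn).2 hmn r

theorem TWI_clX {𝒳 : (E : Type) → [Group E] → Prop} (hCl : ClX 𝒳) (ρ : ℕ → Prop) (m : ℕ) :
    ClX (TWI_cl 𝒳 ρ m) := by
  refine ⟨?_, ?_⟩
  · intro E _ H hE
    obtain ⟨h1, h2, h3⟩ := hE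
    refine ⟨inferInstance, hCl.sub E H h2, fun r hr => ?_⟩
    exact (TWI_cl_mono (Subgroup.card_subgroup_dvd_card H) Nat.card_pos.ne' r).trans (h3 r hr)
  · intro E F _ _ f hf hE
    obtain ⟨h1, h2, h3⟩ := hE
    refine ⟨Finite.of_surjective f hf, hCl.img E F f hf h2, fun r hr => ?_⟩
    exact (TWI_cl_mono (Subgroup.card_dvd_of_surjective f hf) Nat.card_pos.ne' r).trans (h3 r hr)

theorem TWI (hBAS : BAS_stmt) (hTWC : TWC_stmt) (hUPW : UPW_stmt) (hRE : RE_stmt)
    (hPCA : PCAX_stmt) (hGVM : GVM_stmt) (hPMP : PMP_stmt) : TWI_stmt := by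
  intro p _ M hM hpM 𝒳 hCl hcyc ρ hρ
  have key : ∀ n : ℕ, ∀ (G E A : Type) [Group G] [Group E] [Group A] [Finite G] [Finite E]
      (X : Extension G E A), Nat.card A = n → 𝒳 E → Tw p ρ A →
      (PrX 𝒳 ∨ ¬ p ∣ Nat.card A) → (∀ r, ρ r → ¬ r ∣ Nat.card G) →
      IsOp p (⊤ : Subgroup G) ⊥ → ∀ χ ∈ Irr G, PosDefect p M χ →
      ∀ (d : ℤ) (U : Subgroup A), altSum X p M χ d U = 0 := by
    intro n
    induction n using Nat.strong_induction_on with
    | _ n ih =>
      intro G E A _ _ _ _ _ X hn hE hTw hPr hρG hop χ hχ hPD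
      have hfA : Finite A := Finite.of_surjective X.proj X.proj_surjective
      have hsubU : ∀ U : Subgroup A, U ≠ ⊤ → ∀ (d : ℤ) (W : Subgroup U),
          altSum (resE X U) p M χ d W = 0 := by
        intro U hU
        have h1 : Nat.card U < n := by
          rw [← hn]
          refine lt_of_le_of_ne (Subgroup.card_le_card_group U) ?_
          intro h
          exact hU (Subgroup.eq_top_of_card_eq U h)
        refine ih (Nat.card U) h1 G (U.comap X.proj) U (resE X U) rfl (hCl.sub _ _ hE)
          ((hTWC p ρ).sub A U hTw) ?_ hρG hop χ hχ hPD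
        rcases hPr with h | h
        · exact Or.inl h
        · exact Or.inr fun h2 => h (h2.trans (Subgroup.card_subgroup_dvd_card U))
      refine hUPW p M hM hpM G E A X χ hχ hPD (fun U hU d => hsubU U hU d ⊤) ?_
      intro hS d hd
      have hTw' := hTw
      obtain ⟨hTf, P, hPp, hT2, hsyl⟩ := hTw
      by_cases hP : P = ⊥
      · subst hP
        exact hBAS p M hM hpM 𝒳 hCl hcyc G E A X hE hT2
          (fun r hr hrp hrG R => hsyl r hr hrp (fun h => hρG r h hrG) R) hop χ hχ hS d hd
      · obtain ⟨N, hN, hpN, hNp⟩ := TWI_min P hT2.1 hPp hP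
        have hpA : p ∣ Nat.card A := hpN.trans (Subgroup.card_subgroup_dvd_card N)
        have hPr' : PrX 𝒳 := hPr.resolve_right fun h => h hpA
        have hNn : N.Normal := hN.nor
        have hfK : Finite (KE X (diag A)) := (hPMP G E A X (fun _ => ⊤)).2.2
        have hcardN : Nat.card A = Nat.card (A ⧸ N) * Nat.card N :=
          Subgroup.card_eq_card_quotient_mul_card_subgroup N
        have hNr : ∀ r, ρ r → (Nat.card N).factorization r = 0 := by
          intro r hr
          obtain ⟨k, hk⟩ := IsPGroup.iff_card.1 hNp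
          rw [hk]
          have hrp := hρ r hr
          apply Nat.factorization_eq_zero_of_not_dvd
          intro h
          exact hrp.2 ((Nat.prime_dvd_prime_iff_eq hrp.1 Fact.out).1 (hrp.1.dvd_of_dvd_pow h))
        have hK' : TWI_cl 𝒳 ρ (Nat.card A) (KE X (diag A)) := by
          refine ⟨hfK, LF_KE hCl hPr' X hE, fun r hr => ?_⟩
          rw [TWI_card (X2 X), Nat.factorization_mul Nat.card_pos.ne' Nat.card_pos.ne',
            Finsupp.add_apply]
          have h0 : (Nat.card (TT → G)).factorization r = 0 := by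
            apply Nat.factorization_eq_zero_of_not_dvd
            intro h
            rw [Nat.card_fun] at h
            exact hρG r hr ((hρ r hr).1.dvd_of_dvd_pow h)
          rw [h0, add_zero]
        refine hPCA G E A X p M hM hpM hop χ hχ hS (TWI_cl 𝒳 ρ (Nat.card A))
          (TWI_clX hCl ρ (Nat.card A)) hK' N hN hpN ?_ ?_ d hd
        · -- the quotient
          intro G' E' A' _ _ _ _ _ X' hE' hiso hop' χ' hχ' hPD' d' U'
          obtain ⟨e⟩ := hiso
          have hfA' : Finite A' := Finite.of_surjective X'.proj X'.proj_surjective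
          have hcA' : Nat.card A' = Nat.card (A ⧸ N) := Nat.card_congr e.toEquiv
          have h1 : Nat.card A' < n := by
            rw [hcA', ← hn, hcardN]
            have h2 : 1 < Nat.card N := (Subgroup.one_lt_card_iff_ne_bot N).2 hN.ne
            have h3 : 0 < Nat.card (A ⧸ N) := Nat.card_pos
            exact lt_mul_of_one_lt_right h3 h2
          have hTA' : Tw p ρ A' := (hTWC p ρ).img A A'
            (e.symm.toMonoidHom.comp (QuotientGroup.mk' N))
            (e.symm.surjective.comp (QuotientGroup.mk'_surjective N)) hTw'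
          refine ih (Nat.card A') h1 G' E' A' X' rfl hE'.2.1 hTA' (Or.inl hPr') ?_ hop' χ' hχ'
            hPD' d' U'
          intro r hr hdvd
          have h4 := hE'.2.2 r hr
          rw [TWI_card X', Nat.factorization_mul Nat.card_pos.ne' Nat.card_pos.ne', hcardN,
            Nat.factorization_mul Nat.card_pos.ne' Nat.card_pos.ne', Finsupp.add_apply,
            Finsupp.add_apply, hcA', hNr r hr, add_zero] at h4
          have h5 : 0 < (Nat.card G').factorization r :=
            (hρ r hr).1.factorization_pos_of_dvd Nat.card_pos.ne' hdvd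
          omega
        · -- complements
          intro V hV d'
          have h1 := (hGVM A N hN).2.1 V hV
          rw [← FST_two (fun W => altSum X p M χ d' W) V h1.1 h1.2,
            ← hRE G E A X p M χ hχ d' V]
          exact hsubU V h1.1 d' ⊤
  intro G E A _ _ _ _ _ X hE hTw hPr hρG hop χ hχ hPD d U
  exact key (Nat.card A) G E A X rfl hE hTw hPr hρG hop χ hχ hPD d U

end Pool.Agent.NQ
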